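import Pool.Agent.X90.DN.All

/-!
# Finitely many Dirichlet series with rational coefficients at one large argument
-/

set_option autoImplicit false

namespace Pool.Agent.X90.DN

open Finset Filter
open Pool.Agent.X90.DM

theorem one {K : Type} [Fintype K] {σ : ℕ} (G : K → ℕ → ℚ) (hG : ∀ u, Sm σ (G u))
    (hf : ∀ a : K → ℤ, (∀ n, ∑ u, (a u : ℚ) * G u n = 0) → a = 0) :
    ∃ c : ℝ, 0 < c ∧ ∃ w0 : ℕ, ∀ w : ℕ, w0 ≤ w → ∀ a : K → ℤ, a ≠ 0 →
      (∀ u, |(a u : ℝ)| ≤ Real.exp (c * w)) → ∑ u, (a u : ℝ) * dr (G u) w ≠ 0 := by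
  classical
  obtain ⟨L, hcore⟩ := core (ι := Fin 1) (fun _ => G) (fun _ u => hG u) (δ0 := 1) one_pos
  obtain ⟨δ, hδ, N0, hmain⟩ := hcore (1 / ((L : ℝ) + 1)) (by positivity)
  refine ⟨δ, hδ, max N0 σ, fun w hw a ha hac hsum => ?_⟩
  have hw1 : N0 ≤ w := (le_max_left _ _).trans hw
  have hw2 : σ ≤ w := (le_max_right _ _).trans hw
  refine hmain w hw1 (fun _ => w) (fun _ => ⟨hw2, le_rfl⟩) (fun _ => by rw [one_mul]) ?_
    (fun e => a (e 0)) (fun e => hac _) ?_ ?_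
  · -- the gap
    have key : ∀ l ∈ cb (Fin 1) L, ∀ l' ∈ cb (Fin 1) L, l 0 < l' 0 →
        1 / ((L : ℝ) + 1) * (w : ℝ) ≤ lg (fun _ => w) l' - lg (fun _ => w) l := by
      intro l hl l' hl' hlt
      rw [lg, lg, Fin.sum_univ_one, Fin.sum_univ_one, ← sub_mul]
      refine mul_le_mul_of_nonneg_right ?_ (Nat.cast_nonneg _)
      rw [← Real.log_div (by positivity) (by positivity)]
      have h1 : (l 0 : ℝ) + 1 ≤ l' 0 := by exact_mod_cast hlt
      have h2 : (l' 0 : ℝ) + 1 ≤ L := by exact_mod_cast mem_cb.1 hl' 0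
      have h0 : (0 : ℝ) ≤ l 0 := Nat.cast_nonneg _
      have h3 := Real.one_sub_inv_le_log_of_pos (show 0 < ((l' 0 : ℝ) + 1) / ((l 0 : ℝ) + 1) by positivity)
      refine le_trans ?_ h3
      rw [inv_div, div_le_iff₀ (by positivity), sub_mul, one_mul]
      have h4 : ((l 0 : ℝ) + 1) / ((l' 0 : ℝ) + 1) * ((L : ℝ) + 1) =
          ((l 0 : ℝ) + 1) * (((L : ℝ) + 1) / ((l' 0 : ℝ) + 1)) := by ring
      have h5 : ((l 0 : ℝ) + 1) / ((l' 0 : ℝ) + 1) ≤ (l' 0 : ℝ) / ((l' 0 : ℝ) + 1) :=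
        div_le_div_of_nonneg_right h1 (by positivity)
      have h6 : (l' 0 : ℝ) / ((l' 0 : ℝ) + 1) * ((L : ℝ) + 1) ≤ L := by
        rw [div_mul_eq_mul_div, div_le_iff₀ (by positivity)]
        nlinarith
      have h7 : ((l 0 : ℝ) + 1) / ((l' 0 : ℝ) + 1) * ((L : ℝ) + 1) ≤
          (l' 0 : ℝ) / ((l' 0 : ℝ) + 1) * ((L : ℝ) + 1) :=
        mul_le_mul_of_nonneg_right h5 (by positivity)
      linarith
    intro l hl l' hl' hne
    have h0 : l 0 ≠ l' 0 := by
      intro h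
      apply hne
      funext i
      have : i = 0 := Subsingleton.elim _ _
      rw [this, h]
    rcases Nat.lt_or_gt_of_ne h0 with h | h
    · rw [abs_sub_comm]
      exact (key l hl l' hl' h).trans (le_abs_self _)
    · exact (key l' hl' l hl h).trans (le_abs_self _)
  · -- formal
    by_contra hcon
    push Not at hcon
    refine ha (hf a fun n => ?_)
    have h2 := hcon fun _ => n
    rwa [fm, Fintype.sum_equiv (Equiv.funUnique (Fin 1) K) _ (fun u : K => (a u : ℚ) * G u n)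
      (fun e => by rw [Fin.prod_univ_one]; rfl)] at h2
  · -- the value
    rw [ev, Fintype.sum_equiv (Equiv.funUnique (Fin 1) K) _ (fun u : K => ((a u : ℤ) : ℝ) * dr (G u) w)
      (fun e => by rw [Fin.prod_univ_one]; push_cast; rfl)]
    exact hsum

end Pool.Agent.X90.DN
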