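import Mathlib

/-!
# Sign of linear combinations of nested harmonic sums with polynomial coefficients
-/

set_option autoImplicit false

namespace Pool.Agent.X90.DN

open Finset Filter Polynomial

/-- the nested harmonic sum -/
noncomputable def hr : List ℕ → ℕ → ℝ
  | [], _ => 1
  | a :: u, m => ∑ j ∈ Ico 1 m, 1 / (j : ℝ) ^ a * hr u j

lemma hr_succ (a : ℕ) (u : List ℕ) {m : ℕ} (hm : 1 ≤ m) :
    hr (a :: u) (m + 1) = hr (a :: u) m + 1 / (m : ℝ) ^ a * hr u m := by
  rw [hr, hr, sum_Ico_succ_top hm]

lemma hr_step (w : List ℕ) {m : ℕ} (hm : 1 ≤ m) :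
    hr w (m + 1) = hr w m + if w ≠ [] then 1 / (m : ℝ) ^ w.headI * hr w.tail m else 0 := by
  cases w with
  | nil => simp [hr]
  | cons a u =>
    rw [hr_succ a u hm, if_pos (List.cons_ne_nil _ _)]
    rfl

/-- the value -/
noncomputable def Er (x : List ℕ →₀ ℝ[X]) (m : ℕ) : ℝ := ∑ w ∈ x.support, (x w).eval (m : ℝ) * hr w m

lemma Er_eq (x : List ℕ →₀ ℝ[X]) (U : Finset (List ℕ)) (hU : x.support ⊆ U) (m : ℕ) :
    Er x m = ∑ w ∈ U, (x w).eval (m : ℝ) * hr w m := by
  rw [Er]
  refine sum_subset hU fun w _ hw => ?_
  rw [Finsupp.notMem_support_iff.1 hw, eval_zero, zero_mul]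

lemma Er_neg (x : List ℕ →₀ ℝ[X]) (m : ℕ) : Er (-x) m = -Er x m := by
  rw [Er, Er, Finsupp.support_neg, ← sum_neg_distrib]
  refine sum_congr rfl fun w _ => ?_
  rw [Finsupp.neg_apply, eval_neg, neg_mul]

/-- the coefficients of the new relation -/
noncomputable def yr (x : List ℕ →₀ ℝ[X]) (A : ℕ) (Q : ℝ[X]) (w : List ℕ) : ℝ[X] :=
  X ^ A * (Q * taylor 1 (x w) - taylor 1 Q * x w) +
    ∑ v ∈ x.support, if v ≠ [] ∧ v.tail = w then X ^ (A - v.headI) * Q * taylor 1 (x v) else 0

lemma yr_out (x : List ℕ →₀ ℝ[X]) (A : ℕ) (Q : ℝ[X]) (w : List ℕ) (hw : w ∉ x.support)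
    (hw' : ∀ v ∈ x.support, v ≠ [] → v.tail ≠ w) : yr x A Q w = 0 := by
  rw [yr, Finsupp.notMem_support_iff.1 hw, map_zero, mul_zero, mul_zero, sub_zero, mul_zero, zero_add]
  exact sum_eq_zero fun v hv => if_neg fun h => hw' v hv h.1 h.2

lemma sum_yr (x : List ℕ →₀ ℝ[X]) (A : ℕ) (hA : ∀ v ∈ x.support, v.headI ≤ A) (Q : ℝ[X]) {m : ℕ}
    (hm : 1 ≤ m) :
    ∑ w ∈ x.support ∪ x.support.image List.tail, (yr x A Q w).eval (m : ℝ) * hr w m =
      (m : ℝ) ^ A * (Q.eval (m : ℝ) * Er x (m + 1) - Q.eval ((m : ℝ) + 1) * Er x m) := by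
  classical
  have hm0 : (m : ℝ) ≠ 0 := by exact_mod_cast (by omega : m ≠ 0)
  set U := x.support ∪ x.support.image List.tail with hU
  simp only [yr, eval_add, add_mul, sum_add_distrib]
  have h1 : ∑ w ∈ U, (X ^ A * (Q * taylor 1 (x w) - taylor 1 Q * x w)).eval (m : ℝ) * hr w m =
      ∑ w ∈ x.support, (m : ℝ) ^ A * (Q.eval (m : ℝ) * (x w).eval ((m : ℝ) + 1) -
        Q.eval ((m : ℝ) + 1) * (x w).eval (m : ℝ)) * hr w m := by
    symm
    refine (sum_congr rfl fun w _ => ?_).trans (sum_subset subset_union_left fun w _ hw => ?_)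
    · rw [eval_mul, eval_pow, eval_X, eval_sub, eval_mul, eval_mul, taylor_eval, taylor_eval]
    · rw [Finsupp.notMem_support_iff.1 hw]
      simp
  have h2 : ∑ w ∈ U, (∑ v ∈ x.support, if v ≠ [] ∧ v.tail = w then
      X ^ (A - v.headI) * Q * taylor 1 (x v) else 0 : ℝ[X]).eval (m : ℝ) * hr w m =
      ∑ v ∈ x.support, (x v).eval ((m : ℝ) + 1) * ((m : ℝ) ^ A * Q.eval (m : ℝ) *
        if v ≠ [] then 1 / (m : ℝ) ^ v.headI * hr v.tail m else 0) := by
    simp only [eval_finsetSum, sum_mul]
    rw [sum_comm]
    refine sum_congr rfl fun v hv => ?_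
    rw [sum_eq_single v.tail]
    · by_cases h : v = []
      · simp [h]
      · rw [if_pos ⟨h, rfl⟩, if_pos h, eval_mul, eval_mul, eval_pow, eval_X, taylor_eval]
        have h3 : (m : ℝ) ^ A = (m : ℝ) ^ (A - v.headI) * (m : ℝ) ^ v.headI := by
          rw [← pow_add, Nat.sub_add_cancel (hA v hv)]
        rw [h3]
        field_simp
    · intro w _ hw
      rw [if_neg fun h => hw h.2.symm]
      simp
    · intro h
      exact absurd (mem_union_right _ (mem_image_of_mem _ hv)) h
  rw [h1, h2, Er, Er]
  have h3 : ∀ w ∈ x.support, (x w).eval (((m + 1 : ℕ) : ℝ)) * hr w (m + 1) =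
      (x w).eval ((m : ℝ) + 1) * hr w m + (x w).eval ((m : ℝ) + 1) *
        (if w ≠ [] then 1 / (m : ℝ) ^ w.headI * hr w.tail m else 0) := by
    intro w _
    rw [hr_step w hm]
    push_cast
    ring
  rw [sum_congr rfl h3, sum_add_distrib, mul_sub, mul_add, mul_add, mul_sum, mul_sum, mul_sum, mul_sum,
    mul_sum, mul_sum, ← sum_add_distrib, ← sum_add_distrib, ← sum_sub_distrib]
  exact sum_congr rfl fun w _ => by ring

/-- eventually positive, negative or zero -/
def Sgn (g : ℕ → ℝ) : Prop :=
  (∀ᶠ m : ℕ in atTop, 0 < g m) ∨ (∀ᶠ m : ℕ in atTop, g m < 0) ∨ (∀ᶠ m : ℕ in atTop, g m = 0)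

lemma sgn_pos {g q : ℕ → ℝ} (hq : ∀ᶠ m : ℕ in atTop, 0 < q m)
    (hd : ∀ᶠ m : ℕ in atTop, 0 < q m * g (m + 1) - q (m + 1) * g m) : Sgn g := by
  obtain ⟨m0, h0⟩ := eventually_atTop.1 (hq.and hd)
  by_cases h : ∃ m1, m0 ≤ m1 ∧ 0 ≤ g m1
  · obtain ⟨m1, h1, h2⟩ := h
    have key : ∀ m, m0 ≤ m → 0 ≤ g m → 0 < g (m + 1) := by
      intro m hm hg
      have h3 := (h0 m hm).1
      have h4 := (h0 (m + 1) (by omega)).1
      have h5 := (h0 m hm).2
      have h6 : 0 < q m * g (m + 1) := by nlinarith [mul_nonneg h4.le hg]
      exact (pos_iff_pos_of_mul_pos h6).1 h3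
    left
    have key2 : ∀ i, 0 < g (m1 + 1 + i) := by
      intro i
      induction i with
      | zero => exact key m1 h1 h2
      | succ i ih => exact key (m1 + 1 + i) (by omega) ih.le
    refine eventually_atTop.2 ⟨m1 + 1, fun m hm => ?_⟩
    obtain ⟨i, rfl⟩ := Nat.exists_eq_add_of_le hm
    exact key2 i
  · push Not at h
    right
    left
    exact eventually_atTop.2 ⟨m0, fun m hm => h m hm⟩

lemma Sgn.neg {g : ℕ → ℝ} (h : Sgn fun m => -g m) : Sgn g := by
  rcases h with h | h | h
  · right
    left
    filter_upwards [h] with m hm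
    linarith
  · left
    filter_upwards [h] with m hm
    linarith
  · right
    right
    filter_upwards [h] with m hm
    linarith

lemma sgn_of {g q : ℕ → ℝ} (hq : ∀ᶠ m : ℕ in atTop, 0 < q m)
    (hd : Sgn fun m => q m * g (m + 1) - q (m + 1) * g m) : Sgn g := by
  rcases hd with h | h | h
  · exact sgn_pos hq h
  · refine Sgn.neg (sgn_pos hq ?_)
    filter_upwards [h] with m hm
    linarith
  · obtain ⟨m0, h0⟩ := eventually_atTop.1 (hq.and h)
    have key : ∀ i, g (m0 + i) * q m0 = g m0 * q (m0 + i) := by
      intro i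
      induction i with
      | zero => rfl
      | succ i ih =>
        have h1 := (h0 (m0 + i) (by omega)).1
        have h2 := (h0 (m0 + i) (by omega)).2
        refine mul_left_cancel₀ h1.ne' ?_
        rw [← add_assoc]
        linear_combination q m0 * h2 + q (m0 + i + 1) * ih
    have hq0 := (h0 m0 le_rfl).1
    rcases lt_trichotomy 0 (g m0) with h1 | h1 | h1
    · left
      refine eventually_atTop.2 ⟨m0, fun m hm => ?_⟩
      obtain ⟨i, rfl⟩ := Nat.exists_eq_add_of_le hm
      have h2 := key i
      have h3 := (h0 (m0 + i) (by omega)).1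
      have h4 : 0 < g (m0 + i) * q m0 := by
        rw [h2]
        exact mul_pos h1 h3
      exact (pos_iff_pos_of_mul_pos h4).2 hq0
    · right
      right
      refine eventually_atTop.2 ⟨m0, fun m hm => ?_⟩
      obtain ⟨i, rfl⟩ := Nat.exists_eq_add_of_le hm
      have h2 := key i
      rw [← h1, zero_mul] at h2
      exact (mul_eq_zero.1 h2).resolve_right hq0.ne'
    · right
      left
      refine eventually_atTop.2 ⟨m0, fun m hm => ?_⟩
      obtain ⟨i, rfl⟩ := Nat.exists_eq_add_of_le hm
      have h2 := key i
      have h3 := (h0 (m0 + i) (by omega)).1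
      have h4 : g (m0 + i) * q m0 < 0 := by
        rw [h2]
        exact mul_neg_of_neg_of_pos h1 h3
      by_contra hcon
      push Not at hcon
      exact absurd (mul_nonneg hcon hq0.le) (not_le.2 h4)

lemma poly_sign {Q : ℝ[X]} (hQ : Q ≠ 0) :
    (∀ᶠ m : ℕ in atTop, 0 < Q.eval (m : ℝ)) ∨ ∀ᶠ m : ℕ in atTop, Q.eval (m : ℝ) < 0 := by
  obtain ⟨φ, hφ, h⟩ := (Polynomial.isEquivalent_atTop_lead Q).exists_eq_mul
  have hlc := Polynomial.leadingCoeff_ne_zero.2 hQ
  have h1 : ∀ᶠ x : ℝ in atTop, 0 < φ x := hφ.eventually (lt_mem_nhds one_pos)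
  have hc : Tendsto (fun m : ℕ => (m : ℝ)) atTop atTop := tendsto_natCast_atTop_atTop
  have h2 := hc.eventually (h.and (h1.and (eventually_gt_atTop (0 : ℝ))))
  rcases lt_or_gt_of_ne hlc with h3 | h3
  · right
    filter_upwards [h2] with m hm
    obtain ⟨e1, e2, e3⟩ := hm
    rw [e1]
    exact mul_neg_of_pos_of_neg e2 (mul_neg_of_neg_of_pos h3 (pow_pos e3 _))
  · left
    filter_upwards [h2] with m hm
    obtain ⟨e1, e2, e3⟩ := hm
    rw [e1]
    exact mul_pos e2 (mul_pos h3 (pow_pos e3 _))

theorem tri (n : ℕ) : ∀ x : List ℕ →₀ ℝ[X], (∀ w ∈ x.support, w.length < n) → Sgn (Er x) := by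
  classical
  induction n with
  | zero =>
    intro x hx
    have hs : x.support = ∅ := eq_empty_of_forall_notMem fun w hw => by
      have := hx w hw
      omega
    right
    right
    exact Eventually.of_forall fun m => by rw [Er, hs, sum_empty]
  | succ n ih =>
    have hk : ∀ k : ℕ, ∀ x : List ℕ →₀ ℝ[X], (∀ w ∈ x.support, w.length < n + 1) →
        (x.support.filter fun w => w.length = n).card ≤ k → Sgn (Er x) := by
      intro k
      induction k with
      | zero =>
        intro x hx hc
        refine ih x (fun w hw => ?_)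
        have h1 := hx w hw
        have h2 : w.length ≠ n := fun h => by
          have h3 : w ∈ x.support.filter fun w => w.length = n := mem_filter.2 ⟨hw, h⟩
          have := card_pos.2 ⟨w, h3⟩
          omega
        omega
      | succ k ihk =>
        have main : ∀ x : List ℕ →₀ ℝ[X], (∀ w ∈ x.support, w.length < n + 1) →
            (x.support.filter fun w => w.length = n).card ≤ k + 1 →
            ∀ v0 ∈ x.support, v0.length = n → (∀ᶠ m : ℕ in atTop, 0 < (x v0).eval (m : ℝ)) →
            Sgn (Er x) := by
          intro x hx hc v0 hv0 hv0n hQp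
          set Q := x v0 with hQ
          set A : ℕ := ∑ v ∈ x.support, v.headI with hA
          have hAv : ∀ v ∈ x.support, v.headI ≤ A := by
            intro v hv
            exact single_le_sum (f := fun v : List ℕ => v.headI) (fun _ _ => Nat.zero_le _) hv
          set U := x.support ∪ x.support.image List.tail with hU
          have hout : ∀ w, yr x A Q w ≠ 0 → w ∈ U := by
            intro w hw
            by_contra hcon
            rw [hU, mem_union, not_or] at hcon
            exact hw (yr_out x A Q w hcon.1 fun v hv _ h =>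
              hcon.2 (mem_image.2 ⟨v, hv, h⟩))
          set y : List ℕ →₀ ℝ[X] := Finsupp.onFinset U (yr x A Q) hout with hy
          have hyw : ∀ w, y w = yr x A Q w := fun w => Finsupp.onFinset_apply
          have hysup : y.support ⊆ U := Finsupp.support_onFinset_subset
          have htopw : ∀ w, w.length = n → yr x A Q w =
              X ^ A * (Q * taylor 1 (x w) - taylor 1 Q * x w) := by
            intro w hw
            rw [yr, add_eq_left]
            refine sum_eq_zero fun v hv => if_neg fun h => ?_
            have h1 := hx v hv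
            have h2 := List.length_tail (l := v)
            have h3 := List.length_pos_iff.2 h.1
            rw [h.2, hw] at h2
            omega
          have hys : Sgn (Er y) := by
            refine ihk y (fun w hw => ?_) ?_
            · rcases mem_union.1 (hysup hw) with h | h
              · exact hx w h
              · obtain ⟨v, hv, rfl⟩ := mem_image.1 h
                have := hx v hv
                rw [List.length_tail]
                omega
            · have hsub : (y.support.filter fun w => w.length = n) ⊆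
                  (x.support.filter fun w => w.length = n).erase v0 := by
                intro w hw
                rw [mem_filter] at hw
                obtain ⟨h1, h2⟩ := hw
                rw [Finsupp.mem_support_iff, hyw, htopw w h2] at h1
                rw [mem_erase, mem_filter, Finsupp.mem_support_iff]
                refine ⟨?_, ?_, h2⟩
                · rintro rfl
                  apply h1
                  rw [← hQ, mul_comm Q, sub_self, mul_zero]
                · intro h3
                  apply h1
                  rw [h3, map_zero, mul_zero, mul_zero, sub_zero, mul_zero]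
              have h3 := card_le_card hsub
              rw [card_erase_of_mem (mem_filter.2 ⟨hv0, hv0n⟩)] at h3
              omega
          refine sgn_of (q := fun m => Q.eval (m : ℝ)) hQp ?_
          have hev : ∀ m : ℕ, 1 ≤ m → Er y m = (m : ℝ) ^ A *
              (Q.eval (m : ℝ) * Er x (m + 1) - Q.eval (((m + 1 : ℕ) : ℝ)) * Er x m) := by
            intro m hm
            rw [Er_eq y U hysup]
            simp only [hyw]
            rw [sum_yr x A hAv Q hm]
            push_cast
            rfl
          have hp : ∀ m : ℕ, 1 ≤ m → (0 : ℝ) < (m : ℝ) ^ A := fun m hm =>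
            pow_pos (by exact_mod_cast hm) _
          rcases hys with h | h | h
          · left
            filter_upwards [h, eventually_ge_atTop 1] with m h1 h2
            rw [hev m h2] at h1
            exact (pos_iff_pos_of_mul_pos h1).1 (hp m h2)
          · right
            left
            filter_upwards [h, eventually_ge_atTop 1] with m h1 h2
            rw [hev m h2] at h1
            by_contra hcon
            push Not at hcon
            exact absurd (mul_nonneg (hp m h2).le hcon) (not_le.2 h1)
          · right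
            right
            filter_upwards [h, eventually_ge_atTop 1] with m h1 h2
            rw [hev m h2] at h1
            exact (mul_eq_zero.1 h1).resolve_left (hp m h2).ne'
        intro x hx hc
        by_cases htop : ∃ v ∈ x.support, v.length = n
        swap
        · push Not at htop
          exact ih x (fun w hw => by have := hx w hw; have := htop w hw; omega)
        obtain ⟨v0, hv0, hv0n⟩ := htop
        rcases poly_sign (Finsupp.mem_support_iff.1 hv0) with h | h
        · exact main x hx hc v0 hv0 hv0n h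
        · refine Sgn.neg ?_
          have h1 : Sgn (Er (-x)) := by
            refine main (-x) (by rw [Finsupp.support_neg]; exact hx)
              (by rw [Finsupp.support_neg]; exact hc) v0 (by rw [Finsupp.support_neg]; exact hv0) hv0n ?_
            filter_upwards [h] with m hm
            rw [Finsupp.neg_apply, eval_neg]
            linarith
          have h2 : Er (-x) = fun m => -Er x m := funext fun m => Er_neg x m
          rwa [h2] at h1
    intro x hx
    exact hk _ x hx le_rfl

end Pool.Agent.X90.DN
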