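import Pool.Agent.X90.DM.Mcv
import Pool.Agent.X90.DN.Tri

/-!
# Linear relations between the values `∑ χ(n) n ^ (-(w - |u|)) ζ_{n - 1}(u)` of weight `w`
-/

set_option autoImplicit false

namespace Pool.Agent.X90.DN

open Finset Filter
open Pool.Agent.X90.DE (rs mem_rs)
open Pool.Agent.X90.DM

lemma hr_cast (u : List ℕ) : ∀ m, ((hr u m : ℝ) : ℂ) = hs u m := by
  induction u with
  | nil => intro m; simp [hr, hs]
  | cons a u ih =>
    intro m
    rw [hr, hs]
    push_cast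
    exact sum_congr rfl fun j _ => by rw [ih]

lemma hq_real (u : List ℕ) (m : ℕ) : ((hq u m : ℚ) : ℝ) = hr u m := by
  have h1 := hq_cast u m
  rw [← hr_cast] at h1
  exact_mod_cast h1

/-- only the trivial formal relation holds infinitely often -/
lemma formal_freq (W : ℕ) (c : {u // u ∈ rs W} → ℝ)
    (h : ∃ᶠ m : ℕ in atTop, ∑ u, c u * ((m : ℝ) ^ u.1.sum * hr u.1 m) = 0) : c = 0 := by
  classical
  set x : List ℕ →₀ Polynomial ℝ := ∑ u : {u // u ∈ rs W},
    Finsupp.single u.1 (Polynomial.C (c u) * Polynomial.X ^ u.1.sum) with hx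
  have hxa : ∀ u : {u // u ∈ rs W}, x u.1 = Polynomial.C (c u) * Polynomial.X ^ u.1.sum := by
    intro u
    rw [hx, Finsupp.finsetSum_apply, sum_eq_single u]
    · rw [Finsupp.single_eq_same]
    · intro v _ hv
      rw [Finsupp.single_apply, if_neg fun h => hv (Subtype.ext h)]
    · intro h
      exact absurd (mem_univ _) h
  have hsup : x.support ⊆ rs W := by
    intro w hw
    by_contra hcon
    apply Finsupp.mem_support_iff.1 hw
    rw [hx, Finsupp.finsetSum_apply]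
    refine sum_eq_zero fun u _ => ?_
    rw [Finsupp.single_apply, if_neg]
    intro h
    rw [← h] at hcon
    exact hcon u.2
  have hlen : ∀ w ∈ x.support, w.length < W + 1 := by
    intro w hw
    have h1 := mem_rs.1 (hsup hw)
    have h2 := len_le_sum h1.1
    omega
  have hEr : ∀ m : ℕ, Er x m = ∑ u, c u * ((m : ℝ) ^ u.1.sum * hr u.1 m) := by
    intro m
    rw [Er_eq x (rs W) hsup, ← sum_coe_sort (rs W)]
    refine sum_congr rfl fun u _ => ?_
    rw [hxa u, Polynomial.eval_mul, Polynomial.eval_C, Polynomial.eval_pow, Polynomial.eval_X]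
    ring
  have hev : ∀ᶠ m : ℕ in atTop, Er x m = 0 := by
    rcases tri (W + 1) x hlen with h1 | h1 | h1
    · exfalso
      obtain ⟨m, h2, h3⟩ := (h.and_eventually h1).exists
      rw [hEr, h2] at h3
      exact lt_irrefl _ h3
    · exfalso
      obtain ⟨m, h2, h3⟩ := (h.and_eventually h1).exists
      rw [hEr, h2] at h3
      exact lt_irrefl _ h3
    · exact h1
  -- the complex version
  set y : List ℕ →₀ Polynomial ℂ := ∑ u : {u // u ∈ rs W},
    Finsupp.single u.1 (Polynomial.C ((c u : ℝ) : ℂ) * Polynomial.X ^ u.1.sum) with hy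
  have hya : ∀ u : {u // u ∈ rs W}, y u.1 = Polynomial.C ((c u : ℝ) : ℂ) * Polynomial.X ^ u.1.sum := by
    intro u
    rw [hy, Finsupp.finsetSum_apply, sum_eq_single u]
    · rw [Finsupp.single_eq_same]
    · intro v _ hv
      rw [Finsupp.single_apply, if_neg fun h => hv (Subtype.ext h)]
    · intro h
      exact absurd (mem_univ _) h
  have hysup : y.support ⊆ rs W := by
    intro w hw
    by_contra hcon
    apply Finsupp.mem_support_iff.1 hw
    rw [hy, Finsupp.finsetSum_apply]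
    refine sum_eq_zero fun u _ => ?_
    rw [Finsupp.single_apply, if_neg]
    intro h
    rw [← h] at hcon
    exact hcon u.2
  have h0 : y = 0 := by
    refine hs_indep (W + 1) y (fun w hw => ?_) (fun w hw => ((mem_rs.1 (hysup hw)).1)) ?_
    · have h1 := mem_rs.1 (hysup hw)
      have h2 := len_le_sum h1.1
      omega
    · filter_upwards [hev] with m hm
      rw [hEr] at hm
      rw [Ev_eq y (rs W) hysup, ← sum_coe_sort (rs W)]
      have h3 : ((∑ u, c u * ((m : ℝ) ^ u.1.sum * hr u.1 m) : ℝ) : ℂ) = 0 := by rw [hm]; simp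
      rw [← h3]
      push_cast
      refine sum_congr rfl fun u _ => ?_
      rw [hya u, Polynomial.eval_mul, Polynomial.eval_C, Polynomial.eval_pow, Polynomial.eval_X, hr_cast]
      ring
  funext u
  have h1 := hya u
  rw [h0, Finsupp.zero_apply] at h1
  have h2 := (mul_eq_zero.1 h1.symm).resolve_right (pow_ne_zero _ Polynomial.X_ne_zero)
  have h3 := Polynomial.C_eq_zero.1 h2
  exact_mod_cast h3

/-- `∑ χ(n) n ^ (-e) ζ_{n - 1}(u)` -/
noncomputable def Lc (χ : ℕ → ℤ) (e : ℕ) (u : List ℕ) : ℝ :=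
  ∑' n : ℕ, (χ (n + 1) : ℝ) / ((n : ℝ) + 1) ^ e * hr u (n + 1)

/-- **all weights** -/
theorem allc (W : ℕ) (χ : ℕ → ℤ) (B : ℝ) (hB : ∀ n, |(χ n : ℝ)| ≤ B) (hχ : ∃ᶠ n in atTop, χ n ≠ 0) :
    ∃ c : ℝ, 0 < c ∧ ∃ w0 : ℕ, ∀ w : ℕ, w0 ≤ w →
    ∀ a : List ℕ → ℤ, (∃ u ∈ rs W, a u ≠ 0) → (∀ u ∈ rs W, |(a u : ℝ)| ≤ Real.exp (c * w)) →
      ∑ u ∈ rs W, (a u : ℝ) * Lc χ (w - u.sum) u ≠ 0 := by
  classical
  have hB0 : 0 ≤ B := (abs_nonneg _).trans (hB 0)
  set K := {u // u ∈ rs W} with hK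
  set G : Fin 1 → K → ℕ → ℚ := fun _ u n => (χ (n + 1) : ℚ) * ((n : ℚ) + 1) ^ u.1.sum * hq u.1 (n + 1) with hG
  set σ : ℕ := 2 * W + 2 with hσ
  have hlen : ∀ u : K, u.1.length ≤ W ∧ u.1.sum ≤ W := by
    intro u
    have h1 := mem_rs.1 u.2
    exact ⟨(len_le_sum h1.1).trans h1.2, h1.2⟩
  have hGS : ∀ i u, Sm σ (G i u) := by
    intro i u
    have h0 : Summable fun n : ℕ => B * (1 / ((n : ℝ) + 1) ^ 2) := by
      have h1 := (summable_nat_add_iff 1).2 (Real.summable_one_div_nat_pow.2 (by norm_num : 1 < 2))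
      refine (h1.congr fun n => ?_).mul_left _
      push_cast
      rfl
    refine Summable.of_nonneg_of_le (fun n => by positivity) (fun n => ?_) h0
    have hn : (1 : ℝ) ≤ (n : ℝ) + 1 := by linarith [(Nat.cast_nonneg n : (0 : ℝ) ≤ n)]
    have h1 : |(G i u n : ℝ)| ≤ B * ((n : ℝ) + 1) ^ (2 * W) := by
      rw [hG]
      push_cast
      rw [abs_mul, abs_mul]
      have h2 : |(χ (n + 1) : ℝ)| ≤ B := hB (n + 1)
      have h3 : |((n : ℝ) + 1) ^ u.1.sum| ≤ ((n : ℝ) + 1) ^ W := by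
        rw [abs_of_nonneg (by positivity)]
        exact pow_le_pow_right₀ hn (hlen u).2
      have h4 : |((hq u.1 (n + 1) : ℚ) : ℝ)| ≤ ((n : ℝ) + 1) ^ W := by
        rw [abs_of_nonneg (by exact_mod_cast hq_nonneg _ _)]
        have h5 : ((hq u.1 (n + 1) : ℚ) : ℝ) ≤ (((((n + 1 : ℕ) : ℚ) ^ u.1.length : ℚ)) : ℝ) := by
          exact_mod_cast hq_le u.1 (n + 1)
        push_cast at h5
        exact h5.trans (pow_le_pow_right₀ hn (hlen u).1)
      calc |(χ (n + 1) : ℝ)| * |((n : ℝ) + 1) ^ u.1.sum| * |((hq u.1 (n + 1) : ℚ) : ℝ)| ≤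
          B * ((n : ℝ) + 1) ^ W * ((n : ℝ) + 1) ^ W :=
          mul_le_mul (mul_le_mul h2 h3 (abs_nonneg _) hB0) h4 (abs_nonneg _) (by positivity)
        _ = _ := by ring
    rw [div_le_iff₀ (by positivity)]
    calc |(G i u n : ℝ)| ≤ B * ((n : ℝ) + 1) ^ (2 * W) := h1
      _ = B * (1 / ((n : ℝ) + 1) ^ 2) * ((n : ℝ) + 1) ^ σ := by
          rw [hσ, pow_add]
          field_simp
  have hval : ∀ (u : K) (w : ℕ), σ ≤ w → dr (G 0 u) w = Lc χ (w - u.1.sum) u.1 := by
    intro u w hw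
    obtain ⟨hl1, hl2⟩ := hlen u
    rw [Lc, dr]
    refine tsum_congr fun n => ?_
    have hn : ((n : ℝ) + 1) ≠ 0 := by positivity
    rw [hG]
    push_cast
    rw [hq_real]
    have h3 : ((n : ℝ) + 1) ^ w = ((n : ℝ) + 1) ^ (w - u.1.sum) * ((n : ℝ) + 1) ^ u.1.sum := by
      rw [← pow_add]
      congr 1
      omega
    rw [h3]
    field_simp
  obtain ⟨L, hcore⟩ := core G hGS (δ0 := 1) one_pos
  obtain ⟨δ, hδ, N0, hmain⟩ := hcore (1 / ((L : ℝ) + 1)) (by positivity)
  refine ⟨δ, hδ, max N0 σ, fun w hw a ha hac hsum => ?_⟩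
  have hw1 : N0 ≤ w := (le_max_left _ _).trans hw
  have hw2 : σ ≤ w := (le_max_right _ _).trans hw
  refine hmain w hw1 (fun _ => w) (fun _ => ⟨hw2, le_rfl⟩) (fun _ => by rw [one_mul]) ?_
    (fun e => a (e 0).1) (fun e => hac _ (e 0).2) ?_ ?_
  · -- the gap
    have key : ∀ l ∈ cb (Fin 1) L, ∀ l' ∈ cb (Fin 1) L, l 0 < l' 0 →
        1 / ((L : ℝ) + 1) * (w : ℝ) ≤ lg (fun _ => w) l' - lg (fun _ => w) l := by
      intro l hl l' hl' hlt
      rw [lg, lg, Fin.sum_univ_one, Fin.sum_univ_one, ← sub_mul]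
      refine mul_le_mul_of_nonneg_right ?_ (Nat.cast_nonneg _)
      rw [← Real.log_div (by positivity) (by positivity)]
      have h1 : (l 0 : ℝ) + 1 ≤ l' 0 := by exact_mod_cast hlt
      have h2 : (l' 0 : ℝ) + 1 ≤ L := by exact_mod_cast mem_cb.1 hl' 0
      have h0 : (0 : ℝ) ≤ l 0 := Nat.cast_nonneg _
      have h3 := Real.one_sub_inv_le_log_of_pos (show 0 < ((l' 0 : ℝ) + 1) / ((l 0 : ℝ) + 1) by positivity)
      refine le_trans ?_ h3
      rw [inv_div, div_le_iff₀ (by positivity), sub_mul, one_mul]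
      have h4 : ((l 0 : ℝ) + 1) / ((l' 0 : ℝ) + 1) * ((L : ℝ) + 1) =
          ((l 0 : ℝ) + 1) * (((L : ℝ) + 1) / ((l' 0 : ℝ) + 1)) := by ring
      have h5 : ((l 0 : ℝ) + 1) / ((l' 0 : ℝ) + 1) ≤ (l' 0 : ℝ) / ((l' 0 : ℝ) + 1) :=
        div_le_div_of_nonneg_right h1 (by positivity)
      have h6 : (l' 0 : ℝ) / ((l' 0 : ℝ) + 1) * ((L : ℝ) + 1) ≤ L := by
        rw [div_mul_eq_mul_div, div_le_iff₀ (by positivity)]
        nlinarith
      have h7 : ((l 0 : ℝ) + 1) / ((l' 0 : ℝ) + 1) * ((L : ℝ) + 1) ≤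
          (l' 0 : ℝ) / ((l' 0 : ℝ) + 1) * ((L : ℝ) + 1) :=
        mul_le_mul_of_nonneg_right h5 (by positivity)
      linarith
    intro l hl l' hl' hne
    have h0 : l 0 ≠ l' 0 := by
      intro h
      apply hne
      funext i
      have : i = 0 := Subsingleton.elim _ _
      rw [this, h]
    rcases Nat.lt_or_gt_of_ne h0 with h | h
    · rw [abs_sub_comm]
      exact (key l hl l' hl' h).trans (le_abs_self _)
    · exact (key l' hl' l hl h).trans (le_abs_self _)
  · -- formal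
    by_contra hcon
    push Not at hcon
    have h1 : (fun u : K => ((a u.1 : ℤ) : ℝ)) = 0 := by
      refine formal_freq W _ ?_
      refine (hχ.and_eventually (eventually_ge_atTop 1)).mono fun m hm => ?_
      obtain ⟨hm0, hm⟩ := hm
      have h2 := hcon fun _ => m - 1
      rw [fm, Fintype.sum_equiv (Equiv.funUnique (Fin 1) K) _ (fun u : K => (a u.1 : ℚ) * G 0 u (m - 1))
        (fun e => by rw [Fin.prod_univ_one]; rfl)] at h2
      have hm1 : m - 1 + 1 = m := Nat.sub_add_cancel hm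
      have h3 : (χ m : ℝ) * ∑ u : K, ((a u.1 : ℤ) : ℝ) * ((m : ℝ) ^ u.1.sum * hr u.1 m) = 0 := by
        have h4 : ((∑ u : K, (a u.1 : ℚ) * G 0 u (m - 1) : ℚ) : ℝ) = 0 := by rw [h2, Rat.cast_zero]
        rw [← h4, mul_sum]
        push_cast
        refine sum_congr rfl fun u _ => ?_
        rw [hG]
        simp only [hm1]
        push_cast
        rw [hq_real]
        have h5 : (((m - 1 : ℕ) : ℝ) + 1) = (m : ℝ) := by exact_mod_cast congrArg (Nat.cast : ℕ → ℝ) hm1
        rw [h5]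
        ring
      exact (mul_eq_zero.1 h3).resolve_left (by exact_mod_cast hm0)
    obtain ⟨u, hu, hau⟩ := ha
    have h6 := congrFun h1 ⟨u, hu⟩
    simp only [Pi.zero_apply] at h6
    exact hau (by exact_mod_cast h6)
  · -- the value
    rw [ev, Fintype.sum_equiv (Equiv.funUnique (Fin 1) K) _ (fun u : K => ((a u.1 : ℤ) : ℝ) * dr (G 0 u) w)
      (fun e => by rw [Fin.prod_univ_one]; push_cast; rfl)]
    simp only [hval _ w hw2]
    rw [← sum_coe_sort (rs W)] at hsum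
    exact hsum

end Pool.Agent.X90.DN
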